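import Pool.Agent.Helper41.ME.Cat1a
import Pool.Agent.Helper87.ME.ENM
import Pool.Agent.Helper27.ME.KU
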