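import Pool.Agent.Helper89.ME.St.Main2
import Pool.Agent.Helper89.ME.St.Ker
import Pool.Agent.Helper89.ME.St.Base
import Pool.Agent.Helper89.ME.St.Tot

/-!
# STUBS: the wrapper
-/

set_option autoImplicit false

namespace ME

open Encodable Set Filter Topology

/-- rigidity -/
theorem rigid (a : Aut) (P : Set (Set ℕ)) : PE (a.F P) P := rigid_of_pi a (pi_eq a) P

end ME
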