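import Pool.Agent.Helper63.ME.Pack1
import Pool.Agent.Helper82.ME.M5ab
import Pool.Agent.Helper86.ME.Main1d
import Pool.Agent.Helper23.ME.OG
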