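import Pool.Agent.Helper89.ME.St.Main2a

/-!
# STUBS: final part of the main theorem
-/

set_option autoImplicit false

namespace ME

open Encodable Set Filter Topology

/-- ME-M9b: step 5, the contradiction -/
theorem Pack.final {a : Aut} {e : Set ℕ} {f : ℕ → Bool} (P : Pack a e f) : False := sorry

/-- ME-M10: main theorem -/
theorem main_le (a : Aut) (f : ℕ → Bool) : ER (rs f) (a.pi (rs f)) := sorry

theorem pi_eq (a : Aut) (X : Set ℕ) : EE (a.pi X) X := sorry

end ME
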